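import Pool.Agent.TH975.DZ.Main

/-!
# Relations between odd double zeta values, supported near the ends

For even weight `k = 2 w` let `R_k` be the space of relations
`∑_{1 ≤ a < w} c_a ζ(2 a + 1, 2 w - 2 a - 1) = 0`. For fixed `A`, `B`, `H` and all large `w` no
nonzero integer vector `c` with `|c_a| ≤ H`, whose support is contained in the first `A` and the
last `B` coordinates, is in `R_k`, not even modulo `ζ(k)`; the linear form (plus `e ζ(k)`,
`|e| ≤ H`) has absolute value more than `D ^ (-k)`.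
-/

namespace Pool.Agent.Results.MP_9206b6_nt.ShortRelations

open Filter

/-- `ζ(s, t) = ∑_{m > n ≥ 1} m^(-s) n^(-t)`; here `n = p.2 + 1`, `m = p.1 + p.2 + 2` -/
noncomputable def dzeta (s t : ℕ) : ℝ :=
  ∑' p : ℕ × ℕ, (1 : ℝ) / ((((p.1 + p.2 + 2 : ℕ) : ℝ) ^ s) * (((p.2 + 1 : ℕ) : ℝ) ^ t))

/-- `ζ(s) = ∑_{n ≥ 1} n^(-s)` -/
noncomputable def zeta (s : ℕ) : ℝ := ∑' n : ℕ, (1 : ℝ) / ((n : ℝ) + 1) ^ s

/-- the linear form `∑_{a = 1}^{w - 1} c_a ζ(2 a + 1, 2 w - 2 a - 1)`, of weight `2 w` -/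
noncomputable def form (w : ℕ) (c : ℕ → ℤ) : ℝ :=
  ∑ a ∈ Finset.Ico 1 w, (c a : ℝ) * dzeta (2 * a + 1) (2 * w - 2 * a - 1)

/-- the form of `c` as a sum over the ends -/
theorem form_eq {A B w : ℕ} {c : ℕ → ℤ} {e : ℤ} (hw : A + B < w)
    (hs : ∀ a ∈ Finset.Ico 1 w, c a ≠ 0 → a ≤ A ∨ w ≤ a + B) :
    form w c + (e : ℝ) * zeta (2 * w) =
    Pool.Agent.TH975.DZ.S A B (fun a => (c (a + 1) : ℚ)) (fun b => (c (w - 1 - b) : ℚ)) (e : ℚ)
      (2 * w) := by
  classical
  unfold form Pool.Agent.TH975.DZ.S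
  have h1 : ∑ a ∈ Finset.Ico 1 w, (c a : ℝ) * dzeta (2 * a + 1) (2 * w - 2 * a - 1) =
      ∑ a ∈ Finset.Ico 1 (A + 1), (c a : ℝ) * dzeta (2 * a + 1) (2 * w - 2 * a - 1) +
      ∑ a ∈ Finset.Ico (w - B) w, (c a : ℝ) * dzeta (2 * a + 1) (2 * w - 2 * a - 1) := by
    rw [← Finset.sum_union]
    · symm
      apply Finset.sum_subset
      · intro a ha
        rw [Finset.mem_union, Finset.mem_Ico, Finset.mem_Ico] at ha
        rw [Finset.mem_Ico]
        omega
      · intro a ha hna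
        rw [Finset.mem_union, Finset.mem_Ico, Finset.mem_Ico] at hna
        by_cases h : c a = 0
        · rw [h]; simp
        · exfalso
          have h2 := hs a ha h
          rw [Finset.mem_Ico] at ha
          omega
    · rw [Finset.disjoint_left]
      intro a ha hb
      rw [Finset.mem_Ico] at ha hb
      omega
  rw [h1]
  congr 1
  congr 1
  · rw [Finset.sum_Ico_eq_sum_range]
    apply Finset.sum_congr rfl
    intro a ha
    rw [Finset.mem_range] at ha
    have e1 : 1 + a = a + 1 := by omega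
    have e2 : 2 * (a + 1) + 1 = 2 * a + 3 := by omega
    have e3 : 2 * w - 2 * (a + 1) - 1 = 2 * w - (2 * a + 3) := by omega
    rw [e1, e2, e3]
    push_cast
    rfl
  · rw [Finset.sum_Ico_eq_sum_range]
    have e0 : w - (w - B) = B := by omega
    rw [e0, ← Finset.sum_range_reflect]
    apply Finset.sum_congr rfl
    intro b hb
    rw [Finset.mem_range] at hb
    have e1 : w - B + (B - 1 - b) = w - 1 - b := by omega
    have e2 : 2 * (w - 1 - b) + 1 = 2 * w - (2 * b + 1) := by omega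
    have e3 : 2 * w - 2 * (w - 1 - b) - 1 = 2 * b + 1 := by omega
    rw [e1, e2, e3]
    push_cast
    rfl

theorem result : ∀ A B H : ℕ, ∃ D : ℝ, 1 < D ∧ ∃ w0 : ℕ, ∀ w ≥ w0, ∀ (c : ℕ → ℤ) (e : ℤ),
    ((∃ a ∈ Finset.Ico 1 w, c a ≠ 0) ∨ e ≠ 0) →
    (∀ a ∈ Finset.Ico 1 w, |c a| ≤ H) → |e| ≤ H →
    (∀ a ∈ Finset.Ico 1 w, c a ≠ 0 → a ≤ A ∨ w ≤ a + B) →
    (D ^ (2 * w))⁻¹ < |form w c + (e : ℝ) * zeta (2 * w)| := by
  classical
  intro A B H
  set F : Finset (((Fin A → ℤ) × (Fin B → ℤ)) × ℤ) :=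
    ((Fintype.piFinset (fun _ => Finset.Icc (-(H : ℤ)) H) ×ˢ
      Fintype.piFinset (fun _ => Finset.Icc (-(H : ℤ)) H)) ×ˢ Finset.Icc (-(H : ℤ)) H).filter
        (fun x => x ≠ 0) with hF
  have h1 : ∀ x : ((Fin A → ℤ) × (Fin B → ℤ)) × ℤ, ∃ D : ℝ, 1 < D ∧ (x ≠ 0 →
      ∀ᶠ k : ℕ in atTop, D⁻¹ ^ k <
      |Pool.Agent.TH975.DZ.S A B (fun a => if h : a < A then ((x.1.1 ⟨a, h⟩ : ℤ) : ℚ) else 0)
        (fun b => if h : b < B then ((x.1.2 ⟨b, h⟩ : ℤ) : ℚ) else 0) (x.2 : ℚ) k|) := by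
    intro x
    by_cases hx : x = 0
    · exact ⟨2, by norm_num, fun h => absurd hx h⟩
    · obtain ⟨D, hD, h⟩ := Pool.Agent.TH975.DZ.main A B
        (fun a => if h : a < A then ((x.1.1 ⟨a, h⟩ : ℤ) : ℚ) else 0)
        (fun b => if h : b < B then ((x.1.2 ⟨b, h⟩ : ℤ) : ℚ) else 0) (x.2 : ℚ) (by
          rintro ⟨h2, h3, h4⟩
          apply hx
          apply Prod.ext
          · apply Prod.ext
            · funext i
              have := h2 i.1 i.2
              simp only [i.2, dite_true] at this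
              exact_mod_cast this
            · funext i
              have := h3 i.1 i.2
              simp only [i.2, dite_true] at this
              exact_mod_cast this
          · exact_mod_cast h4)
      exact ⟨D, hD, fun _ => h⟩
  choose D hD hD' using h1
  set D0 : ℝ := 2 + ∑ x ∈ F, D x with hD0
  have hDle : ∀ x ∈ F, D x ≤ D0 := by
    intro x hx
    have := Finset.single_le_sum (f := D) (fun i _ => (by linarith [hD i] : (0 : ℝ) ≤ D i)) hx
    rw [hD0]
    linarith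
  have hD1 : 1 < D0 := by
    have : 0 ≤ ∑ x ∈ F, D x := Finset.sum_nonneg (fun i _ => by linarith [hD i])
    rw [hD0]
    linarith
  have h2 : ∀ᶠ k : ℕ in atTop, ∀ x ∈ F, (D x)⁻¹ ^ k <
      |Pool.Agent.TH975.DZ.S A B (fun a => if h : a < A then ((x.1.1 ⟨a, h⟩ : ℤ) : ℚ) else 0)
        (fun b => if h : b < B then ((x.1.2 ⟨b, h⟩ : ℤ) : ℚ) else 0) (x.2 : ℚ) k| := by
    rw [Filter.eventually_all_finset]
    intro x hx
    rw [hF, Finset.mem_filter] at hx
    exact hD' x hx.2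
  obtain ⟨k0, hk0⟩ := Filter.eventually_atTop.1 h2
  refine ⟨D0, hD1, k0 + A + B + 1, fun w hw c e hne hH hHe hs => ?_⟩
  rw [form_eq (A := A) (B := B) (by omega) hs]
  set x : ((Fin A → ℤ) × (Fin B → ℤ)) × ℤ :=
    ((fun i => c (i.1 + 1), fun j => c (w - 1 - j.1)), e) with hx
  have hxF : x ∈ F := by
    rw [hF, Finset.mem_filter, Finset.mem_product, Finset.mem_product, Fintype.mem_piFinset,
      Fintype.mem_piFinset]
    refine ⟨⟨⟨fun i => ?_, fun j => ?_⟩, ?_⟩, ?_⟩
    · rw [Finset.mem_Icc, ← abs_le]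
      exact hH _ (Finset.mem_Ico.2 ⟨by omega, by have := i.2; omega⟩)
    · rw [Finset.mem_Icc, ← abs_le]
      exact hH _ (Finset.mem_Ico.2 ⟨by have := j.2; omega, by omega⟩)
    · rw [Finset.mem_Icc, ← abs_le]
      exact hHe
    · intro h0
      have h4 := congrArg (fun y : ((Fin A → ℤ) × (Fin B → ℤ)) × ℤ => y.1.1) h0
      have h5 := congrArg (fun y : ((Fin A → ℤ) × (Fin B → ℤ)) × ℤ => y.1.2) h0
      have h8 := congrArg (fun y : ((Fin A → ℤ) × (Fin B → ℤ)) × ℤ => y.2) h0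
      rcases hne with ⟨a, ha, hca⟩ | hne
      · have h3 := hs a ha hca
        rw [Finset.mem_Ico] at ha
        rcases h3 with h3 | h3
        · apply hca
          have h6 := congrFun h4 ⟨a - 1, by omega⟩
          simp only [hx] at h6
          have e : a - 1 + 1 = a := by omega
          rw [e] at h6
          exact h6
        · apply hca
          have h6 := congrFun h5 ⟨w - 1 - a, by omega⟩
          simp only [hx] at h6
          have e : w - 1 - (w - 1 - a) = a := by omega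
          rw [e] at h6
          exact h6
      · exact hne h8
  have h3 := hk0 (2 * w) (by omega) x hxF
  have h4 : Pool.Agent.TH975.DZ.S A B (fun a => if h : a < A then ((x.1.1 ⟨a, h⟩ : ℤ) : ℚ) else 0)
        (fun b => if h : b < B then ((x.1.2 ⟨b, h⟩ : ℤ) : ℚ) else 0) (x.2 : ℚ) (2 * w) =
      Pool.Agent.TH975.DZ.S A B (fun a => (c (a + 1) : ℚ)) (fun b => (c (w - 1 - b) : ℚ)) (e : ℚ)
        (2 * w) := by
    unfold Pool.Agent.TH975.DZ.S
    congr 1
    congr 1
    · apply Finset.sum_congr rfl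
      intro a ha
      rw [Finset.mem_range] at ha
      simp only [ha, dite_true, hx]
    · apply Finset.sum_congr rfl
      intro b hb
      rw [Finset.mem_range] at hb
      simp only [hb, dite_true, hx]
  rw [h4] at h3
  refine lt_of_le_of_lt ?_ h3
  rw [inv_pow]
  apply inv_anti₀ (by have := hD x; positivity)
  apply pow_le_pow_left₀ (by linarith [hD x])
  exact hDle x hxF

end Pool.Agent.Results.MP_9206b6_nt.ShortRelations
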