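import Mathlib
import Pool.Agent.TH981.DZ.Main

set_option autoImplicit false

/-!
# The double zeta values with two odd arguments in two weights (MP_9206b6_nt)

Let `d_k` be the dimension of the `ℚ`-span of the double zeta values `ζ(2a+1, 2b-1)`, `a, b ≥ 1`,
`2(a+b) = k`, let `R_k` be the space of their `ℚ`-linear relations and `x_a = ζ(2a+1) / π^(2a+1)`.
For all even `k ≥ 4` and `k' = k + 2δ`, `δ ≥ 1`, the squares of all `x_a` with `a < k'/2 - 1` lie in
a field generated by at most `d_k + d_k' - 2 + ⌊δ/2⌋` real numbers. In particular, for every set of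
algebraically independent numbers among these `x_a`, its cardinality is at most
`d_k + d_k' - 2 + ⌊δ/2⌋`.

Proof: the span of weight `k` contains `π^k` (the sum formula of Gangl, Kaneko and Zagier: the sum of
the generators is `ζ(k) / 4`) and all products `ζ(2a+1) ζ(2b+1)` of weight `k`. So the field `K`
generated by the two spaces, divided by `π^k` and `π^k'`, contains the products `x_a x_b` for
`a + b = n` and for `a + b = n + δ`, where `n = k/2 - 1`; hence it contains `x_(b+δ) / x_b` for all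
`b < n`, and `x_r x_s` if `r + s` is congruent to `n` modulo `δ`. Adjoining one number for each pair
of different classes `r`, `n - r` modulo `δ`, one obtains a field containing all `x_a ^ 2`.
-/

open Filter Topology

namespace Pool.Agent.Results.MP_9206b6_nt.TwoWeights

/-- The zeta value `ζ(s) = ∑_{n ≥ 1} n^{-s}`. -/
noncomputable def zeta (s : ℕ) : ℝ := ∑' n : ℕ, 1 / (((n + 1 : ℕ) : ℝ) ^ s)

/-- The double zeta value `ζ(r, s) = ∑_{m > n ≥ 1} m^{-r} n^{-s}`; here `n = p.2 + 1` and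
`m = p.1 + p.2 + 2`. -/
noncomputable def dzeta (r s : ℕ) : ℝ :=
  ∑' p : ℕ × ℕ, 1 / ((((p.1 + p.2 + 2 : ℕ) : ℝ) ^ r) * (((p.2 + 1 : ℕ) : ℝ) ^ s))

/-- The `ℚ`-span of the numbers `ζ(2a+1, 2b-1)`, `a, b ≥ 1`, `a + b = m` (weight `k = 2 m`). -/
noncomputable def oddSpan (m : ℕ) : Submodule ℚ ℝ :=
  Submodule.span ℚ {y | ∃ a b : ℕ, 1 ≤ a ∧ 1 ≤ b ∧ a + b = m ∧ y = dzeta (2 * a + 1) (2 * b - 1)}

/-- The space of the `ℚ`-linear relations `∑ c_i ζ(2i+3, 2m-2i-3) = 0`, `0 ≤ i < m - 1`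
(`a = i + 1`), in weight `k = 2 m`. -/
noncomputable def relations (m : ℕ) : Submodule ℚ (Fin (m - 1) → ℚ) :=
  LinearMap.ker (Fintype.linearCombination ℚ
    (fun i : Fin (m - 1) => dzeta (2 * (i : ℕ) + 3) (2 * m - 2 * (i : ℕ) - 3)))

lemma zeta_eq : zeta = TH981.DZ.zr := rfl

lemma dzeta_eq (r s : ℕ) : dzeta r s = TH981.DZ.zd r s := by
  unfold dzeta TH981.DZ.zd TH981.DZ.w
  refine tsum_congr fun p => ?_
  rw [one_div_mul_one_div]

lemma oddSpan_eq (m : ℕ) : oddSpan m = TH981.DZ.D m := by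
  unfold oddSpan TH981.DZ.D
  congr 1
  ext y
  constructor
  · rintro ⟨a, b, ha, hb, hab, rfl⟩
    refine ⟨⟨a - 1, by omega⟩, ?_⟩
    have e1 : 2 * (a - 1) + 3 = 2 * a + 1 := by omega
    have e2 : 2 * m - 2 * (a - 1) - 3 = 2 * b - 1 := by omega
    simp only [e1, e2]
    exact (dzeta_eq _ _).symm
  · rintro ⟨i, rfl⟩
    have hi := i.2
    refine ⟨(i : ℕ) + 1, m - ((i : ℕ) + 1), by omega, by omega, by omega, ?_⟩
    have e1 : 2 * ((i : ℕ) + 1) + 1 = 2 * (i : ℕ) + 3 := by omega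
    have e2 : 2 * (m - ((i : ℕ) + 1)) - 1 = 2 * m - 2 * (i : ℕ) - 3 := by omega
    rw [e1, e2, dzeta_eq]

lemma relations_eq (m : ℕ) : relations m = TH981.DZ.Rel m := by
  unfold relations TH981.DZ.Rel
  simp only [dzeta_eq]

/-- Weights `2 n + 2` and `2 (n + δ) + 2`. -/
theorem result (n δ : ℕ) (hn : 1 ≤ n) (hδ : 1 ≤ δ) :
    (∃ S : Finset ℝ,
      S.card + 2 ≤ Module.finrank ℚ (oddSpan (n + 1)) + Module.finrank ℚ (oddSpan (n + δ + 1)) +
        δ / 2 ∧
      ∀ a : ℕ, 1 ≤ a → a < n + δ →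
        (zeta (2 * a + 1) / Real.pi ^ (2 * a + 1)) ^ 2 ∈
          IntermediateField.adjoin ℚ (S : Set ℝ)) ∧
    (∀ A : Finset ℕ, (∀ a ∈ A, 1 ≤ a ∧ a < n + δ) →
      AlgebraicIndependent ℚ
        (fun a : A => zeta (2 * (a : ℕ) + 1) / Real.pi ^ (2 * (a : ℕ) + 1)) →
      A.card + 2 ≤ Module.finrank ℚ (oddSpan (n + 1)) + Module.finrank ℚ (oddSpan (n + δ + 1)) +
        δ / 2 ∧
      Module.finrank ℚ (relations (n + 1)) + Module.finrank ℚ (relations (n + δ + 1)) +
        A.card + 2 ≤ 2 * n + δ + δ / 2) := by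
  have f : ∀ m, Module.finrank ℚ (oddSpan m) = Module.finrank ℚ (TH981.DZ.D m) := fun m => by
    rw [oddSpan_eq]
  have g : ∀ m, Module.finrank ℚ (relations m) = Module.finrank ℚ (TH981.DZ.Rel m) := fun m => by
    rw [relations_eq]
  rw [f, f, g, g]
  obtain ⟨S, hS, hS'⟩ := TH981.DZ.main_block hn hδ
  refine ⟨⟨S, hS, hS'⟩, fun A hA hind => ?_⟩
  have hcard := TH981.DZ.card_le_of_isAlgebraic S (fun a : A => TH981.DZ.xv a) hind
    (fun a => TH981.DZ.isAlgebraic_of_sq (hS' a (hA a a.2).1 (hA a a.2).2))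
  rw [Fintype.card_coe] at hcard
  have r1 := TH981.DZ.rank_nullity (n + 1)
  have r2 := TH981.DZ.rank_nullity (n + δ + 1)
  constructor
  · omega
  · omega

end Pool.Agent.Results.MP_9206b6_nt.TwoWeights
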